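import Pool.Agent.helper77.MC.Spec

set_option autoImplicit false

namespace Pool.Agent.helper77.MC

open Finset Numbering

private theorem S2_cls {n : ℕ} (k : ℕ) (x : Fin n → ℝ) (P : Finset (Fin n)) (F : Finset (Finset (Fin n)))
    (hF : ∀ s ∈ F, s.filter (fun i => ¬ x i < 0) = P ∧ ∑ i ∈ s, x i = 0 ∧ #s ≤ k) :
    #F ≤ #(fam (fun i : {i : Fin n // x i < 0} => - x i.1) (∑ i ∈ P, x i) (k - #P)) := by
  classical
  apply card_le_card_of_injOn (fun s => s.subtype (fun i => x i < 0))
  · intro s hs
    obtain ⟨h1, h2, h3⟩ := hF s hs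
    unfold fam
    rw [mem_coe, mem_filter]
    refine ⟨mem_univ _, ?_, ?_⟩
    · have e1 : ∑ i ∈ s.subtype (fun i => x i < 0), - x i.1 = ∑ i ∈ s.filter (fun i => x i < 0), - x i :=
        Finset.sum_subtype_eq_sum_filter (p := fun i => x i < 0) (fun i => - x i)
      rw [e1, sum_neg_distrib]
      have e2 := sum_filter_add_sum_filter_not s (fun i => x i < 0) x
      rw [h1, h2] at e2
      linarith
    · show #(s.subtype (fun i => x i < 0)) ≤ k - #P
      rw [card_subtype]
      have e3 := card_filter_add_card_filter_not (s := s) (fun i => x i < 0)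
      rw [h1] at e3
      omega
  · intro s hs s' hs' h
    obtain ⟨h1, -, -⟩ := hF s hs
    obtain ⟨h1', -, -⟩ := hF s' hs'
    have e4 : s.filter (fun i => x i < 0) = s'.filter (fun i => x i < 0) := by
      rw [← subtype_map, ← subtype_map]
      exact congrArg _ h
    rw [← filter_union_filter_not_eq (fun i => x i < 0) s,
      ← filter_union_filter_not_eq (fun i => x i < 0) s', e4, h1, h1']

theorem S2 : S2_stmt := by
  intro n k x u v hx huv hpos
  classical
  have hxu : ¬ x u < 0 := not_lt.2 ((hpos u).2 (Or.inl rfl)).le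
  have hxv : ¬ x v < 0 := not_lt.2 ((hpos v).2 (Or.inr rfl)).le
  have hout : ∀ i, ¬ x i < 0 → i = u ∨ i = v := fun i hi =>
    (hpos i).1 (lt_of_le_of_ne (not_lt.1 hi) (hx i).symm)
  obtain ⟨Z, hZc, hZ⟩ : ∃ Z : Finset (Finset (Fin n)), Pool.Agent.helper72.UP.zer x k = #Z ∧
      ∀ s, s ∈ Z ↔ s.Nonempty ∧ #s ≤ k ∧ ∑ i ∈ s, x i = 0 := by
    unfold Pool.Agent.helper72.UP.zer
    exact ⟨_, rfl, fun s => by rw [mem_filter]; exact ⟨fun h => h.2, fun h => ⟨mem_univ _, h⟩⟩⟩
  have hR : ∀ s ∈ Z, s.filter (fun i => ¬ x i < 0) = {u} ∨ s.filter (fun i => ¬ x i < 0) = {v} ∨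
      s.filter (fun i => ¬ x i < 0) = {u, v} := by
    intro s hs
    obtain ⟨h1, -, h3⟩ := (hZ s).1 hs
    by_cases hu : u ∈ s
    · by_cases hv : v ∈ s
      · right
        right
        ext i
        rw [mem_filter, mem_insert, mem_singleton]
        constructor
        · exact fun h => hout i h.2
        · rintro (rfl | rfl)
          · exact ⟨hu, hxu⟩
          · exact ⟨hv, hxv⟩
      · left
        ext i
        rw [mem_filter, mem_singleton]
        constructor
        · rintro ⟨hi, hi2⟩
          rcases hout i hi2 with h | h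
          · exact h
          · exact absurd (h ▸ hi) hv
        · rintro rfl
          exact ⟨hu, hxu⟩
    · by_cases hv : v ∈ s
      · right
        left
        ext i
        rw [mem_filter, mem_singleton]
        constructor
        · rintro ⟨hi, hi2⟩
          rcases hout i hi2 with h | h
          · exact absurd (h ▸ hi) hu
          · exact h
        · rintro rfl
          exact ⟨hv, hxv⟩
      · exfalso
        have h4 : ∑ i ∈ s, x i < ∑ i ∈ s, (0 : ℝ) := by
          apply sum_lt_sum_of_nonempty h1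
          intro i hi
          by_contra hn
          rcases hout i hn with h | h
          · exact hu (h ▸ hi)
          · exact hv (h ▸ hi)
        rw [sum_const_zero, h3] at h4
        exact lt_irrefl _ h4
  have key : ∀ P : Finset (Fin n), #(Z.filter (fun s => s.filter (fun i => ¬ x i < 0) = P)) ≤
      #(fam (fun i : {i : Fin n // x i < 0} => - x i.1) (∑ i ∈ P, x i) (k - #P)) := by
    intro P
    apply S2_cls k x P
    intro s hs
    obtain ⟨hs1, hs2⟩ := mem_filter.1 hs
    obtain ⟨-, h2, h3⟩ := (hZ s).1 hs1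
    exact ⟨hs2, h3, h2⟩
  have k1 := key {u}
  have k2 := key {v}
  have k3 := key {u, v}
  rw [sum_singleton, card_singleton] at k1 k2
  rw [sum_pair huv, card_pair huv] at k3
  have hsub : Z ⊆ (Z.filter (fun s => s.filter (fun i => ¬ x i < 0) = {u}) ∪
      Z.filter (fun s => s.filter (fun i => ¬ x i < 0) = {v})) ∪
      Z.filter (fun s => s.filter (fun i => ¬ x i < 0) = {u, v}) := by
    intro s hs
    rw [mem_union, mem_union, mem_filter, mem_filter, mem_filter]
    rcases hR s hs with h | h | h
    · exact Or.inl (Or.inl ⟨hs, h⟩)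
    · exact Or.inl (Or.inr ⟨hs, h⟩)
    · exact Or.inr ⟨hs, h⟩
  have h5 := (card_le_card hsub).trans (card_union_le _ _)
  have h6 := card_union_le (Z.filter (fun s => s.filter (fun i => ¬ x i < 0) = {u}))
    (Z.filter (fun s => s.filter (fun i => ¬ x i < 0) = {v}))
  rw [hZc]
  omega

end Pool.Agent.helper77.MC
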